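import Mathlib
import Pool.Agent.Helper62.SkeinFam

set_option linter.unusedSimpArgs false
set_option autoImplicit false

namespace Pool.Agent.Results.MP_43d316_gt.Classification

open Pool.Agent.Helper62.Skein Pool.Agent.Helper62.Families Pool.Agent.Helper62.SkeinFam
open Pool.Agent.Results.MP_43d316_gt.TorsionFamilies (UnknotTorsion Good necessary)

/-! ### Families under field extensions -/

section
variable {K L : Type*} [Field K] [Field L] (f : K →+* L) {a b0 b1 b2 b3 bi : K}

theorem mapY (h : FamilyY a b0 b1 b2 b3 bi) :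
    FamilyY (f a) (f b0) (f b1) (f b2) (f b3) (f bi) := by
  obtain ⟨h1, h2, h3⟩ := h
  refine ⟨?_, ?_, ?_⟩
  · simpa using congrArg f h1
  · simpa using congrArg f h2
  · intro h0
    rcases h3 (f.injective (by rw [h0, map_zero])) with ⟨e1, e2, e3⟩ | e
    · left
      exact ⟨by simpa using congrArg f e1, by simpa using congrArg f e2,
        by simpa using congrArg f e3⟩
    · right
      simpa using congrArg f e

theorem mapK (h : FamilyK a b0 b1 b2 b3 bi) :
    FamilyK (f a) (f b0) (f b1) (f b2) (f b3) (f bi) := by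
  obtain ⟨ε, z, hε, hz, h1, h2, h3⟩ := h
  refine ⟨f ε, f z, ?_, by simpa using hz, by simpa using congrArg f h1,
    by simpa using congrArg f h2, by simpa using congrArg f h3⟩
  rcases hε with rfl | rfl
  · left; simp
  · right; simp

theorem mapB (h : FamilyB a b0 b1 b2 b3 bi) :
    FamilyB (f a) (f b0) (f b1) (f b2) (f b3) (f bi) := by
  obtain ⟨A, h1, h2, h3⟩ := h
  exact ⟨f A, by simpa using congrArg f h1, by simpa using congrArg f h2,
    by simpa using congrArg f h3⟩

theorem mapO (h : FamilyO a b0 b1 b2 b3 bi) :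
    FamilyO (f a) (f b0) (f b1) (f b2) (f b3) (f bi) := by
  obtain ⟨h1, h2⟩ := h
  exact ⟨by simpa using congrArg f h1, by simpa using congrArg f h2⟩

end

/-! ### Change of rings -/

section
variable {R S : Type*} [CommRing R] [CommRing S] (f : R →+* S)

/-- change of coefficients -/
noncomputable def cc : (FramedLink →₀ R) →+ (FramedLink →₀ S) :=
  Finsupp.mapRange.addMonoidHom f.toAddMonoidHom

theorem cc_smul (r : R) (x : FramedLink →₀ R) : cc f (r • x) = f r • cc f x := by
  ext L
  simp [cc]

theorem cc_link (w : List (ℕ × Piece)) : cc f (link R w) = link S w := by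
  unfold link
  split_ifs with h
  · simp [cc]
  · simp

variable (a b0 b3 : Rˣ) (b1 b2 bi : R)

theorem cc_mem {x : FramedLink →₀ R} (hx : x ∈ relations R a b0 b3 b1 b2 bi) :
    cc f x ∈ relations S (Units.map (f : R →* S) a) (Units.map (f : R →* S) b0)
      (Units.map (f : R →* S) b3) (f b1) (f b2) (f bi) := by
  unfold relations at hx
  induction hx using Submodule.span_induction with
  | mem x h =>
    apply Submodule.subset_span
    rcases h with ⟨A, B, n, k, hA, hB, hk, rfl⟩ | ⟨A, B, n, k, hA, hB, hk, rfl⟩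
    · left
      refine ⟨A, B, n, k, hA, hB, hk, ?_⟩
      simp only [map_add, cc_smul, cc_link]
      rfl
    · right
      refine ⟨A, B, n, k, hA, hB, hk, ?_⟩
      simp only [map_sub, cc_smul, cc_link]
      rfl
  | zero => rw [map_zero]; exact zero_mem _
  | add x y _ _ hx hy => rw [map_add]; exact add_mem hx hy
  | smul r x _ hx => rw [cc_smul]; exact Submodule.smul_mem _ _ hx

theorem cc_lift (hf : Function.Surjective f) {y : FramedLink →₀ S}
    (hy : y ∈ relations S (Units.map (f : R →* S) a) (Units.map (f : R →* S) b0)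
      (Units.map (f : R →* S) b3) (f b1) (f b2) (f bi)) :
    ∃ x ∈ relations R a b0 b3 b1 b2 bi, cc f x = y := by
  unfold relations at hy
  induction hy using Submodule.span_induction with
  | mem y h =>
    rcases h with ⟨A, B, n, k, hA, hB, hk, rfl⟩ | ⟨A, B, n, k, hA, hB, hk, rfl⟩
    · refine ⟨_, Submodule.subset_span (Or.inl ⟨A, B, n, k, hA, hB, hk, rfl⟩), ?_⟩
      simp only [map_add, cc_smul, cc_link]
      rfl
    · refine ⟨_, Submodule.subset_span (Or.inr ⟨A, B, n, k, hA, hB, hk, rfl⟩), ?_⟩
      simp only [map_sub, cc_smul, cc_link]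
      rfl
  | zero => exact ⟨0, zero_mem _, map_zero _⟩
  | add x y _ _ hx hy =>
    obtain ⟨u, hu, rfl⟩ := hx
    obtain ⟨v, hv, rfl⟩ := hy
    exact ⟨u + v, add_mem hu hv, map_add _ _ _⟩
  | smul s x _ hx =>
    obtain ⟨u, hu, rfl⟩ := hx
    obtain ⟨r, rfl⟩ := hf s
    exact ⟨r • u, Submodule.smul_mem _ _ hu, cc_smul f r u⟩

end

theorem torsion_iff {R : Type*} [CommRing R] (a b0 b3 : Rˣ) (b1 b2 bi : R) :
    UnknotTorsion a b0 b3 b1 b2 bi ↔
      ∃ r ∈ nonZeroDivisors R, r • link R (trivialLink 1) ∈ relations R a b0 b3 b1 b2 bi := by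
  unfold UnknotTorsion
  constructor
  · rintro ⟨r, hr, h⟩
    rw [← map_smul, Submodule.mkQ_apply, Submodule.Quotient.mk_eq_zero] at h
    exact ⟨r, hr, h⟩
  · rintro ⟨r, hr, h⟩
    refine ⟨r, hr, ?_⟩
    rw [← map_smul, Submodule.mkQ_apply, Submodule.Quotient.mk_eq_zero]
    exact h

/-- Reduced rings with finitely many minimal primes: torsion can be tested modulo the minimal
primes. -/
theorem torsion_reduced {R : Type*} [CommRing R] [IsReduced R] (hfin : (minimalPrimes R).Finite)
    (a b0 b3 : Rˣ) (b1 b2 bi : R) :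
    UnknotTorsion a b0 b3 b1 b2 bi ↔ ∀ p ∈ minimalPrimes R,
      UnknotTorsion (Units.map (Ideal.Quotient.mk p : R →* R ⧸ p) a)
        (Units.map (Ideal.Quotient.mk p : R →* R ⧸ p) b0)
        (Units.map (Ideal.Quotient.mk p : R →* R ⧸ p) b3)
        (Ideal.Quotient.mk p b1) (Ideal.Quotient.mk p b2) (Ideal.Quotient.mk p bi) := by
  constructor
  · intro h p hp
    rw [torsion_iff] at h ⊢
    obtain ⟨r, hr, h⟩ := h
    have hprime : p.IsPrime := hp.1.1
    have hrp : r ∉ p := fun hrp => by
      have := Ideal.disjoint_nonZeroDivisors_of_mem_minimalPrimes hp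
      exact Set.disjoint_left.mp this hrp hr
    refine ⟨Ideal.Quotient.mk p r, ?_, ?_⟩
    · apply mem_nonZeroDivisors_of_ne_zero
      rwa [Ne, Ideal.Quotient.eq_zero_iff_mem]
    · have := cc_mem (Ideal.Quotient.mk p) a b0 b3 b1 b2 bi h
      rwa [cc_smul, cc_link] at this
  · intro h
    have key : ∀ p ∈ minimalPrimes R, ∃ r : R, r ∉ p ∧ (∀ q ∈ minimalPrimes R, q ≠ p → r ∈ q) ∧
        r • link R (trivialLink 1) ∈ relations R a b0 b3 b1 b2 bi := by
      intro p hp
      have hprime : p.IsPrime := hp.1.1
      obtain ⟨r', hr', h'⟩ := (torsion_iff _ _ _ _ _ _).mp (h p hp)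
      obtain ⟨r, rfl⟩ := Ideal.Quotient.mk_surjective r'
      have hrp : r ∉ p := fun hrp =>
        nonZeroDivisors.ne_zero hr' (Ideal.Quotient.eq_zero_iff_mem.mpr hrp)
      obtain ⟨x, hx, hx2⟩ := cc_lift (Ideal.Quotient.mk p) a b0 b3 b1 b2 bi
        Ideal.Quotient.mk_surjective h'
      -- an element in all the other minimal primes
      obtain ⟨s, hsp, hs⟩ : ∃ s : R, s ∉ p ∧ ∀ q ∈ minimalPrimes R, q ≠ p → s ∈ q := by
        classical
        have hq : ∀ q ∈ hfin.toFinset.erase p, ∃ t ∈ q, t ∉ p := by
          intro q hq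
          rw [Finset.mem_erase, Set.Finite.mem_toFinset] at hq
          have : ¬ q ≤ p := fun hle => hq.1 (le_antisymm hle (hp.2 hq.2.1 hle))
          exact SetLike.not_le_iff_exists.mp this
        choose! t ht using hq
        refine ⟨∏ q ∈ hfin.toFinset.erase p, t q, ?_, ?_⟩
        · intro hmem
          obtain ⟨q, hq, hq2⟩ := (hprime.prod_mem_iff).mp hmem
          exact (ht q hq).2 hq2
        · intro q hq hqp
          have hq' : q ∈ hfin.toFinset.erase p := by
            rw [Finset.mem_erase, Set.Finite.mem_toFinset]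
            exact ⟨hqp, hq⟩
          exact Ideal.mem_of_dvd q (Finset.dvd_prod_of_mem t hq') (ht q hq').1
      refine ⟨s * r, ?_, fun q hq hqp => Ideal.mul_mem_right _ _ (hs q hq hqp), ?_⟩
      · intro hmem
        rcases hprime.mem_or_mem hmem with h1 | h1
        · exact hsp h1
        · exact hrp h1
      · have e : s • (r • link R (trivialLink 1) - x) = 0 := by
          ext L
          have hL : (r • link R (trivialLink 1) - x) L ∈ p := by
            have : cc (Ideal.Quotient.mk p) (r • link R (trivialLink 1) - x) = 0 := by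
              rw [map_sub, cc_smul, cc_link, hx2, sub_self]
            have h2 := DFunLike.congr_fun this L
            simp only [cc, Finsupp.mapRange.addMonoidHom_apply, Finsupp.mapRange_apply,
              Finsupp.coe_zero, Pi.zero_apply] at h2
            exact Ideal.Quotient.eq_zero_iff_mem.mp h2
          rw [Finsupp.smul_apply, Finsupp.zero_apply, smul_eq_mul]
          have hall : s * (r • link R (trivialLink 1) - x) L ∈ sInf (minimalPrimes R) := by
            rw [Ideal.mem_sInf]
            intro q hq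
            by_cases hqp : q = p
            · subst hqp
              exact Ideal.mul_mem_left _ _ hL
            · exact Ideal.mul_mem_right _ _ (hs q hq hqp)
          have : sInf (minimalPrimes R) = ⊥ := by
            rw [minimalPrimes, Ideal.sInf_minimalPrimes]
            exact nilradical_eq_zero R
          rw [this] at hall
          simpa using hall
        have e2 : (s * r) • link R (trivialLink 1) = s • x := by
          rw [smul_sub, sub_eq_zero] at e
          rw [mul_smul]
          exact e
        rw [e2]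
        exact Submodule.smul_mem _ _ hx
    choose! r hr using key
    rw [torsion_iff]
    refine ⟨∑ p ∈ hfin.toFinset, r p, ?_, ?_⟩
    · have hnot : ∀ p ∈ minimalPrimes R, ∑ q ∈ hfin.toFinset, r q ∉ p := by
        intro p hp hmem
        have hp' : p ∈ hfin.toFinset := hfin.mem_toFinset.mpr hp
        rw [← Finset.add_sum_erase _ _ hp'] at hmem
        have h2 : ∑ q ∈ hfin.toFinset.erase p, r q ∈ p := by
          apply Ideal.sum_mem
          intro q hq
          rw [Finset.mem_erase, Set.Finite.mem_toFinset] at hq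
          exact (hr q hq.2).2.1 p hp (fun h => hq.1 h.symm)
        exact (hr p hp).1 ((Ideal.add_mem_iff_left _ h2).mp hmem)
      rw [mem_nonZeroDivisors_iff_right]
      intro x hx
      have hall : x ∈ sInf (minimalPrimes R) := by
        rw [Ideal.mem_sInf]
        intro q hq
        have hprime : q.IsPrime := hq.1.1
        have : x * ∑ p ∈ hfin.toFinset, r p ∈ q := by rw [hx]; exact zero_mem _
        rcases hprime.mem_or_mem this with h1 | h1
        · exact h1
        · exact absurd h1 (hnot q hq)
      have : sInf (minimalPrimes R) = ⊥ := by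
        rw [minimalPrimes, Ideal.sInf_minimalPrimes]
        exact nilradical_eq_zero R
      rw [this] at hall
      simpa using hall
    · rw [Finset.sum_smul]
      apply Submodule.sum_mem
      intro p hp
      exact (hr p (hfin.mem_toFinset.mp hp)).2.2

/-! ### Integral domains -/

section
variable {D : Type*} [CommRing D] [IsDomain D] (a b0 b3 : Dˣ) (b1 b2 bi : D)

/-- the field in which the families are considered -/
local instance : FaithfulSMul D (AlgebraicClosure (FractionRing D)) :=
  (faithfulSMul_iff_algebraMap_injective _ _).mpr (by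
    rw [IsScalarTower.algebraMap_eq D (FractionRing D) (AlgebraicClosure (FractionRing D))]
    exact (algebraMap (FractionRing D) (AlgebraicClosure (FractionRing D))).injective.comp
      (IsFractionRing.injective D (FractionRing D)))

theorem domain_nec (h : ¬ UnknotTorsion a b0 b3 b1 b2 bi)
    {α β0 β1 β2 β3 βi : AlgebraicClosure (FractionRing D)}
    (h1 : α = algebraMap D _ a) (h2 : β0 = algebraMap D _ b0) (h3 : β1 = algebraMap D _ b1)
    (h4 : β2 = algebraMap D _ b2) (h5 : β3 = algebraMap D _ b3) (h6 : βi = algebraMap D _ bi) :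
    FamilyY α β0 β1 β2 β3 βi ∨ FamilyK α β0 β1 β2 β3 βi ∨ FamilyB α β0 β1 β2 β3 βi ∨
      FamilyO α β0 β1 β2 β3 βi := by
  subst h1 h2 h3 h4 h5 h6
  simp only [IsScalarTower.algebraMap_apply D (FractionRing D) (AlgebraicClosure (FractionRing D))]
  rcases necessary (K := FractionRing D) a b0 b3 b1 b2 bi h with h | h | h | h
  · exact Or.inl (mapY _ h)
  · exact Or.inr (Or.inl (mapK _ h))
  · exact Or.inr (Or.inr (Or.inl (mapB _ h)))
  · exact Or.inr (Or.inr (Or.inr (mapO _ h)))

theorem domain_suf {α β0 β1 β2 β3 βi : AlgebraicClosure (FractionRing D)}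
    (h1 : α = algebraMap D _ a) (h2 : β0 = algebraMap D _ b0) (h3 : β1 = algebraMap D _ b1)
    (h4 : β2 = algebraMap D _ b2) (h5 : β3 = algebraMap D _ b3) (h6 : βi = algebraMap D _ bi)
    (h : FamilyK α β0 β1 β2 β3 βi ∨ FamilyB α β0 β1 β2 β3 βi ∨ FamilyO α β0 β1 β2 β3 βi ∨
      FamilyS α β0 β1 β2 β3 βi) : ¬ UnknotTorsion a b0 b3 b1 b2 bi := by
  have ha : α ≠ 0 := by
    rw [h1]
    exact (a.isUnit.map (algebraMap D _)).ne_zero
  obtain ⟨P, hP⟩ : ∃ P : FramedLink → AlgebraicClosure (FractionRing D),
      Good α β0 β1 β2 β3 βi P := by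
    rcases h with h | h | h | h
    · exact good_K ha h
    · exact Pool.Agent.Results.MP_43d316_gt.TorsionFamilies.good_bracket ha h
    · exact Pool.Agent.Results.MP_43d316_gt.TorsionFamilies.good_one h
    · exact good_S h
  subst h1 h2 h3 h4 h5 h6
  exact not_torsion' a b0 b3 b1 b2 bi P hP

end

/-! ### The classification -/

/-- An algebraic closure of the field of fractions of `R / p`. -/
abbrev Res {R : Type*} [CommRing R] (p : Ideal R) [p.IsPrime] : Type _ :=
  AlgebraicClosure (FractionRing (R ⧸ p))

/-- The images of the parameters in the field `Res p` satisfy the condition `C`. -/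
def At {R : Type*} [CommRing R] (p : Ideal R) [p.IsPrime]
    (C : Res p → Res p → Res p → Res p → Res p → Res p → Prop) (a b0 b3 : Rˣ) (b1 b2 bi : R) :
    Prop :=
  C (algebraMap R (Res p) a) (algebraMap R (Res p) b0) (algebraMap R (Res p) b1)
    (algebraMap R (Res p) b2) (algebraMap R (Res p) b3) (algebraMap R (Res p) bi)

/-- The trivial knot in the (4,infinity) skein module over a reduced ring `R` with finitely many
minimal primes.
(1) If, for every minimal prime `p`, `b_infinity` vanishes modulo `p` or the parameters are not in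
the family `Y` at `p`, then the trivial knot is not torsion if and only if the parameters are in one
of the families `K`, `B`, `O` at some minimal prime.
(2) In all cases, if the trivial knot is not torsion, then the parameters are in one of the families
`Y`, `K`, `B`, `O` at some minimal prime.
(3) If the parameters are in one of the families `K`, `B`, `O`, `S` at some minimal prime, then the
trivial knot is not torsion. -/
theorem result {R : Type*} [CommRing R] [IsReduced R] (hfin : (minimalPrimes R).Finite)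
    (a b0 b3 : Rˣ) (b1 b2 bi : R) :
    ((∀ (p : Ideal R) (_ : p.IsPrime), p ∈ minimalPrimes R →
        bi ∈ p ∨ ¬ At p FamilyY a b0 b3 b1 b2 bi) →
      (¬ UnknotTorsion a b0 b3 b1 b2 bi ↔
        ∃ (p : Ideal R) (_ : p.IsPrime), p ∈ minimalPrimes R ∧
          (At p FamilyK a b0 b3 b1 b2 bi ∨ At p FamilyB a b0 b3 b1 b2 bi ∨
            At p FamilyO a b0 b3 b1 b2 bi))) ∧
    (¬ UnknotTorsion a b0 b3 b1 b2 bi →
      ∃ (p : Ideal R) (_ : p.IsPrime), p ∈ minimalPrimes R ∧
        (At p FamilyY a b0 b3 b1 b2 bi ∨ At p FamilyK a b0 b3 b1 b2 bi ∨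
          At p FamilyB a b0 b3 b1 b2 bi ∨ At p FamilyO a b0 b3 b1 b2 bi)) ∧
    ((∃ (p : Ideal R) (_ : p.IsPrime), p ∈ minimalPrimes R ∧
        (At p FamilyK a b0 b3 b1 b2 bi ∨ At p FamilyB a b0 b3 b1 b2 bi ∨
          At p FamilyO a b0 b3 b1 b2 bi ∨ At p FamilyS a b0 b3 b1 b2 bi)) →
      ¬ UnknotTorsion a b0 b3 b1 b2 bi) := by
  have tower : ∀ (p : Ideal R) [p.IsPrime] (x : R),
      algebraMap R (Res p) x = algebraMap (R ⧸ p) (Res p) (Ideal.Quotient.mk p x) := by
    intro p _ x
    rw [IsScalarTower.algebraMap_apply R (R ⧸ p) (Res p)]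
    rfl
  have nec : ¬ UnknotTorsion a b0 b3 b1 b2 bi →
      ∃ (p : Ideal R) (_ : p.IsPrime), p ∈ minimalPrimes R ∧
        (At p FamilyY a b0 b3 b1 b2 bi ∨ At p FamilyK a b0 b3 b1 b2 bi ∨
          At p FamilyB a b0 b3 b1 b2 bi ∨ At p FamilyO a b0 b3 b1 b2 bi) := by
    intro h
    rw [torsion_reduced hfin] at h
    push Not at h
    obtain ⟨p, hp, h⟩ := h
    have hprime : p.IsPrime := hp.1.1
    exact ⟨p, hprime, hp, domain_nec _ _ _ _ _ _ h (tower p _) (tower p _) (tower p _) (tower p _)
      (tower p _) (tower p _)⟩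
  have suf : (∃ (p : Ideal R) (_ : p.IsPrime), p ∈ minimalPrimes R ∧
        (At p FamilyK a b0 b3 b1 b2 bi ∨ At p FamilyB a b0 b3 b1 b2 bi ∨
          At p FamilyO a b0 b3 b1 b2 bi ∨ At p FamilyS a b0 b3 b1 b2 bi)) →
      ¬ UnknotTorsion a b0 b3 b1 b2 bi := by
    rintro ⟨p, hprime, hp, h⟩ ht
    rw [torsion_reduced hfin] at ht
    exact domain_suf _ _ _ _ _ _ (tower p _) (tower p _) (tower p _) (tower p _) (tower p _)
      (tower p _) h (ht p hp)
  refine ⟨fun hY => ⟨fun h => ?_, fun h => ?_⟩, nec, suf⟩
  · obtain ⟨p, hprime, hp, h⟩ := nec h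
    refine ⟨p, hprime, hp, ?_⟩
    rcases h with h | h
    · rcases hY p hprime hp with h0 | h0
      · have hz : algebraMap R (Res p) bi = 0 := by
          rw [tower, Ideal.Quotient.eq_zero_iff_mem.mpr h0, map_zero]
        have h0' : algebraMap R (Res p) b0 ≠ 0 := (b0.isUnit.map (algebraMap R (Res p))).ne_zero
        have h3' : algebraMap R (Res p) b3 ≠ 0 := (b3.isUnit.map (algebraMap R (Res p))).ne_zero
        unfold At at h ⊢
        rw [hz] at h ⊢
        exact Or.inr (y_zero h0' h3' h)
      · exact absurd h h0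
    · exact h
  · obtain ⟨p, hprime, hp, h⟩ := h
    apply suf
    refine ⟨p, hprime, hp, ?_⟩
    tauto

end Pool.Agent.Results.MP_43d316_gt.Classification
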